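import Mathlib

/-!
Burling's triangle-free intersection graphs of boxes in three dimensions with large
chromatic number, in an order-theoretic form.
-/

namespace Pool.Agent.Lib.Pd1e448

/-- A family of axis-parallel boxes `[x1,x2] x [y1,y2] x [z1,z2]` indexed by `V`. -/
structure Boxes (V : Type) where
  x1 : V → ℚ
  x2 : V → ℚ
  y1 : V → ℚ
  y2 : V → ℚ
  z1 : V → ℚ
  z2 : V → ℚ

/-- Two boxes intersect. -/
def Boxes.Hit {V : Type} (B : Boxes V) (v w : V) : Prop :=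
  (B.x1 v ≤ B.x2 w ∧ B.x1 w ≤ B.x2 v) ∧ (B.y1 v ≤ B.y2 w ∧ B.y1 w ≤ B.y2 v) ∧
    (B.z1 v ≤ B.z2 w ∧ B.z1 w ≤ B.z2 v)

/-- The box of `v` meets the column of the probe `p` (the column is unbounded to the right in the
first direction and unbounded in the third direction). -/
def Meets {V P : Type} (B : Boxes V) (Q : Boxes P) (v : V) (p : P) : Prop :=
  Q.x1 p ≤ B.x2 v ∧ B.y1 v ≤ Q.y2 p ∧ Q.y1 p ≤ B.y2 v

/-- The inductive invariant. -/
structure Good (k : ℕ) {V P : Type} (B : Boxes V) (Q : Boxes P) : Prop where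
  bx : ∀ v, B.x1 v ≤ B.x2 v
  by' : ∀ v, B.y1 v ≤ B.y2 v
  bz : ∀ v, B.z1 v ≤ B.z2 v
  px : ∀ p, Q.x1 p < Q.x2 p
  py : ∀ p, Q.y1 p < Q.y2 p
  pz : ∀ p, Q.z1 p < Q.z2 p
  ydisj : ∀ p q, p ≠ q → Q.y2 p < Q.y1 q ∨ Q.y2 q < Q.y1 p
  meet : ∀ v p, Meets B Q v p → B.x1 v < Q.x1 p ∧ Q.x2 p < B.x2 v ∧ B.y1 v < Q.y1 p ∧
    Q.y2 p < B.y2 v ∧ (B.z2 v < Q.z1 p ∨ Q.z2 p < B.z1 v)
  stable : ∀ p v w, Meets B Q v p → Meets B Q w p → v ≠ w → ¬ B.Hit v w
  tri : ∀ u v w, u ≠ v → v ≠ w → u ≠ w → B.Hit u v → B.Hit v w → B.Hit u w → False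
  col : ∀ c : V → ℕ, (∀ v w, v ≠ w → B.Hit v w → c v ≠ c w) →
    ∃ p, k ≤ (c '' {v | Meets B Q v p}).ncard

theorem Boxes.Hit.symm {V : Type} {B : Boxes V} {v w : V} (h : B.Hit v w) : B.Hit w v :=
  ⟨⟨h.1.2, h.1.1⟩, ⟨h.2.1.2, h.2.1.1⟩, ⟨h.2.2.2, h.2.2.1⟩⟩

theorem exists_strictMono_Ioo {a b : ℚ} (h : a < b) :
    ∃ f : ℚ → ℚ, StrictMono f ∧ ∀ x, a < f x ∧ f x < b := by
  have : Nontrivial (Set.Ioo a b) := by
    refine ⟨⟨⟨a + (b - a) / 3, by constructor <;> linarith⟩,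
      ⟨a + (b - a) / 2, by constructor <;> linarith⟩, ?_⟩⟩
    intro he
    have := congrArg Subtype.val he
    simp only at this
    linarith
  obtain ⟨e⟩ := Order.embedding_from_countable_to_dense ℚ (Set.Ioo a b)
  exact ⟨fun x => (e x : ℚ), fun x y hxy => by
    have : e x < e y := e.lt_iff_lt.mpr hxy
    exact this, fun x => ⟨(e x).2.1, (e x).2.2⟩⟩

theorem good_zero : ∃ (B : Boxes Empty) (Q : Boxes Unit), Good 0 B Q := by
  refine ⟨⟨fun v => v.elim, fun v => v.elim, fun v => v.elim, fun v => v.elim, fun v => v.elim,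
    fun v => v.elim⟩, ⟨fun _ => 0, fun _ => 1, fun _ => 0, fun _ => 1, fun _ => 0, fun _ => 1⟩,
    ?_⟩
  refine ⟨fun v => v.elim, fun v => v.elim, fun v => v.elim, fun _ => by norm_num,
    fun _ => by norm_num, fun _ => by norm_num, fun p q h => (h rfl).elim, fun v => v.elim,
    fun p v => v.elim, fun v => v.elim, fun c _ => ⟨(), Nat.zero_le _⟩⟩

/-- Data for the induction step. -/
structure StepMaps (P : Type) (Q : Boxes P) where
  X : P → ℚ → ℚ
  Y : P → ℚ → ℚ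
  Z : P → ℚ → ℚ
  hX : ∀ p, StrictMono (X p)
  hY : ∀ p, StrictMono (Y p)
  hZ : ∀ p, StrictMono (Z p)
  X1 : ∀ p x, Q.x1 p < X p x
  X2 : ∀ p x, X p x < Q.x1 p + (Q.x2 p - Q.x1 p) / 4
  Y1 : ∀ p x, Q.y1 p < Y p x
  Y2 : ∀ p x, Y p x < Q.y2 p
  Z1 : ∀ p x, Q.z1 p < Z p x
  Z2 : ∀ p x, Z p x < Q.z1 p + (Q.z2 p - Q.z1 p) / 4

theorem exists_stepMaps {k : ℕ} {V P : Type} {B : Boxes V} {Q : Boxes P} (h : Good k B Q) :
    Nonempty (StepMaps P Q) := by
  have h1 : ∀ p, ∃ f : ℚ → ℚ, StrictMono f ∧ ∀ x, Q.x1 p < f x ∧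
      f x < Q.x1 p + (Q.x2 p - Q.x1 p) / 4 :=
    fun p => exists_strictMono_Ioo (by have := h.px p; linarith)
  have h2 : ∀ p, ∃ f : ℚ → ℚ, StrictMono f ∧ ∀ x, Q.y1 p < f x ∧ f x < Q.y2 p :=
    fun p => exists_strictMono_Ioo (h.py p)
  have h3 : ∀ p, ∃ f : ℚ → ℚ, StrictMono f ∧ ∀ x, Q.z1 p < f x ∧
      f x < Q.z1 p + (Q.z2 p - Q.z1 p) / 4 :=
    fun p => exists_strictMono_Ioo (by have := h.pz p; linarith)
  choose X hX using h1
  choose Y hY using h2
  choose Z hZ using h3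
  exact ⟨⟨X, Y, Z, fun p => (hX p).1, fun p => (hY p).1, fun p => (hZ p).1,
    fun p x => ((hX p).2 x).1, fun p x => ((hX p).2 x).2,
    fun p x => ((hY p).2 x).1, fun p x => ((hY p).2 x).2,
    fun p x => ((hZ p).2 x).1, fun p x => ((hZ p).2 x).2⟩⟩

/-- The new vertices: old ones, a copy of all old ones for each probe, and one extra box for each
pair of probes. -/
abbrev NV (V P : Type) := V ⊕ (P × V) ⊕ (P × P)

/-- The boxes of the next level. -/
def nextB {V P : Type} (B : Boxes V) (Q : Boxes P) (M : StepMaps P Q) : Boxes (NV V P) where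
  x1 := Sum.elim B.x1 (Sum.elim (fun a => M.X a.1 (B.x1 a.2))
    (fun a => M.X a.1 ((Q.x1 a.2 + Q.x2 a.2) / 2)))
  x2 := Sum.elim B.x2 (Sum.elim (fun a => M.X a.1 (B.x2 a.2))
    (fun a => Q.x1 a.1 + (Q.x2 a.1 - Q.x1 a.1) * 3 / 4))
  y1 := Sum.elim B.y1 (Sum.elim (fun a => M.Y a.1 (B.y1 a.2))
    (fun a => M.Y a.1 (Q.y1 a.2 + (Q.y2 a.2 - Q.y1 a.2) * 1 / 8)))
  y2 := Sum.elim B.y2 (Sum.elim (fun a => M.Y a.1 (B.y2 a.2))
    (fun a => M.Y a.1 (Q.y1 a.2 + (Q.y2 a.2 - Q.y1 a.2) * 4 / 8)))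
  z1 := Sum.elim B.z1 (Sum.elim (fun a => M.Z a.1 (B.z1 a.2))
    (fun a => Q.z1 a.1))
  z2 := Sum.elim B.z2 (Sum.elim (fun a => M.Z a.1 (B.z2 a.2))
    (fun a => Q.z1 a.1 + (Q.z2 a.1 - Q.z1 a.1) / 4))

/-- The probes of the next level: `false` is the upper probe, `true` the lower one. -/
def nextQ {P : Type} (Q : Boxes P) (M : StepMaps P Q) : Boxes ((P × P) × Bool) where
  x1 := fun a => bif a.2 then Q.x1 a.1.1 + (Q.x2 a.1.1 - Q.x1 a.1.1) * 3 / 8
    else M.X a.1.1 (Q.x1 a.1.2)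
  x2 := fun a => bif a.2 then Q.x1 a.1.1 + (Q.x2 a.1.1 - Q.x1 a.1.1) * 5 / 8
    else M.X a.1.1 (Q.x2 a.1.2)
  y1 := fun a => bif a.2 then M.Y a.1.1 (Q.y1 a.1.2 + (Q.y2 a.1.2 - Q.y1 a.1.2) * 2 / 8)
    else M.Y a.1.1 (Q.y1 a.1.2 + (Q.y2 a.1.2 - Q.y1 a.1.2) * 5 / 8)
  y2 := fun a => bif a.2 then M.Y a.1.1 (Q.y1 a.1.2 + (Q.y2 a.1.2 - Q.y1 a.1.2) * 3 / 8)
    else M.Y a.1.1 (Q.y1 a.1.2 + (Q.y2 a.1.2 - Q.y1 a.1.2) * 6 / 8)
  z1 := fun a => Q.z1 a.1.1 + (Q.z2 a.1.1 - Q.z1 a.1.1) / 2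
  z2 := fun a => Q.z1 a.1.1 + (Q.z2 a.1.1 - Q.z1 a.1.1) * 3 / 4

section Step

variable {k : ℕ} {V P : Type} {B : Boxes V} {Q : Boxes P} (h : Good k B Q) (M : StepMaps P Q)

include h

theorem eq_of_y {p p' : P} {a1 a2 b1 b2 : ℚ} (h1 : a1 ≤ b2) (h2 : b1 ≤ a2) (h3 : Q.y1 p < a1)
    (h4 : a2 < Q.y2 p) (h5 : Q.y1 p' < b1) (h6 : b2 < Q.y2 p') : p = p' := by
  by_contra hne
  rcases h.ydisj p p' hne with hd | hd <;> linarith

theorem eq_of_y' {p p' : P} {a1 a2 b1 b2 : ℚ} (h1 : a1 ≤ b2) (h2 : b1 ≤ a2) (h3 : Q.y1 p ≤ a1)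
    (h4 : a2 ≤ Q.y2 p) (h5 : Q.y1 p' ≤ b1) (h6 : b2 ≤ Q.y2 p') : p = p' := by
  by_contra hne
  rcases h.ydisj p p' hne with hd | hd <;> linarith

omit h in
theorem hit_ll (v w : V) : (nextB B Q M).Hit (Sum.inl v) (Sum.inl w) ↔ B.Hit v w := Iff.rfl

theorem not_hit_lc (v : V) (p : P) (w : V) :
    ¬ (nextB B Q M).Hit (Sum.inl v) (Sum.inr (Sum.inl (p, w))) := by
  intro hh
  simp only [Boxes.Hit, nextB, Sum.elim_inl, Sum.elim_inr] at hh
  obtain ⟨⟨a1, a2⟩, ⟨b1, b2⟩, ⟨c1, c2⟩⟩ := hh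
  have hm : Meets B Q v p := ⟨by have := M.X1 p (B.x1 w); linarith,
    by have := M.Y2 p (B.y2 w); linarith, by have := M.Y1 p (B.y1 w); linarith⟩
  have hpz := h.pz p
  rcases (h.meet v p hm).2.2.2.2 with hz | hz
  · have := M.Z1 p (B.z1 w); linarith
  · have := M.Z2 p (B.z2 w); linarith

theorem not_hit_ld (v : V) (p q : P) :
    ¬ (nextB B Q M).Hit (Sum.inl v) (Sum.inr (Sum.inr (p, q))) := by
  intro hh
  simp only [Boxes.Hit, nextB, Sum.elim_inl, Sum.elim_inr] at hh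
  obtain ⟨⟨a1, a2⟩, ⟨b1, b2⟩, ⟨c1, c2⟩⟩ := hh
  have hm : Meets B Q v p := ⟨by have := M.X1 p ((Q.x1 q + Q.x2 q) / 2); linarith,
    by have := M.Y2 p (Q.y1 q + (Q.y2 q - Q.y1 q) * 4 / 8); linarith,
    by have := M.Y1 p (Q.y1 q + (Q.y2 q - Q.y1 q) * 1 / 8); linarith⟩
  have hpz := h.pz p
  rcases (h.meet v p hm).2.2.2.2 with hz | hz
  · linarith
  · linarith

theorem hit_cc (p p' : P) (v w : V) :
    (nextB B Q M).Hit (Sum.inr (Sum.inl (p, v))) (Sum.inr (Sum.inl (p', w))) ↔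
      p = p' ∧ B.Hit v w := by
  constructor
  · intro hh
    simp only [Boxes.Hit, nextB, Sum.elim_inl, Sum.elim_inr] at hh
    obtain ⟨⟨a1, a2⟩, ⟨b1, b2⟩, ⟨c1, c2⟩⟩ := hh
    have hp : p = p' := eq_of_y h b1 b2 (M.Y1 _ _) (M.Y2 _ _) (M.Y1 _ _) (M.Y2 _ _)
    subst hp
    rw [(M.hX p).le_iff_le] at a1 a2
    rw [(M.hY p).le_iff_le] at b1 b2
    rw [(M.hZ p).le_iff_le] at c1 c2
    exact ⟨rfl, ⟨a1, a2⟩, ⟨b1, b2⟩, ⟨c1, c2⟩⟩
  · rintro ⟨rfl, ⟨a1, a2⟩, ⟨b1, b2⟩, ⟨c1, c2⟩⟩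
    simp only [Boxes.Hit, nextB, Sum.elim_inl, Sum.elim_inr]
    exact ⟨⟨(M.hX p).monotone a1, (M.hX p).monotone a2⟩,
      ⟨(M.hY p).monotone b1, (M.hY p).monotone b2⟩,
      ⟨(M.hZ p).monotone c1, (M.hZ p).monotone c2⟩⟩

theorem hit_cd (p p' : P) (v : V) (q : P) :
    (nextB B Q M).Hit (Sum.inr (Sum.inl (p, v))) (Sum.inr (Sum.inr (p', q))) ↔
      p = p' ∧ Meets B Q v q := by
  have hqx := h.px q
  have hqy := h.py q
  constructor
  · intro hh
    simp only [Boxes.Hit, nextB, Sum.elim_inl, Sum.elim_inr] at hh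
    obtain ⟨⟨a1, a2⟩, ⟨b1, b2⟩, ⟨c1, c2⟩⟩ := hh
    have hp : p = p' := eq_of_y h b1 b2 (M.Y1 _ _) (M.Y2 _ _) (M.Y1 _ _) (M.Y2 _ _)
    subst hp
    rw [(M.hX p).le_iff_le] at a2
    rw [(M.hY p).le_iff_le] at b1 b2
    exact ⟨rfl, by linarith, by linarith, by linarith⟩
  · rintro ⟨rfl, hm⟩
    obtain ⟨m1, m2, m3, m4, -⟩ := h.meet v q hm
    simp only [Boxes.Hit, nextB, Sum.elim_inl, Sum.elim_inr]
    refine ⟨⟨?_, (M.hX p).monotone (by linarith)⟩,
      ⟨(M.hY p).monotone (by linarith), (M.hY p).monotone (by linarith)⟩, ⟨?_, ?_⟩⟩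
    · have := M.X2 p (B.x1 v); have := h.px p; linarith
    · exact (M.Z2 p (B.z1 v)).le
    · exact (M.Z1 p (B.z2 v)).le

theorem hit_dd (p p' : P) (q q' : P) :
    (nextB B Q M).Hit (Sum.inr (Sum.inr (p, q))) (Sum.inr (Sum.inr (p', q'))) →
      p = p' ∧ q = q' := by
  have hqy := h.py q
  have hqy' := h.py q'
  intro hh
  simp only [Boxes.Hit, nextB, Sum.elim_inl, Sum.elim_inr] at hh
  obtain ⟨⟨a1, a2⟩, ⟨b1, b2⟩, ⟨c1, c2⟩⟩ := hh
  have hp : p = p' := eq_of_y h b1 b2 (M.Y1 _ _) (M.Y2 _ _) (M.Y1 _ _) (M.Y2 _ _)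
  subst hp
  rw [(M.hY p).le_iff_le] at b1 b2
  refine ⟨rfl, eq_of_y' h b1 b2 (by linarith) (by linarith) (by linarith) (by linarith)⟩

theorem meets_l (v : V) (p q : P) (b : Bool) :
    Meets (nextB B Q M) (nextQ Q M) (Sum.inl v) ((p, q), b) ↔ Meets B Q v p := by
  have hpx := h.px p
  have hpy := h.py p
  constructor
  · intro hh
    cases b <;> simp only [Meets, nextB, nextQ, Sum.elim_inl, cond_true, cond_false] at hh ⊢ <;>
      obtain ⟨m1, m2, m3⟩ := hh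
    · refine ⟨?_, ?_, ?_⟩
      · have := M.X1 p (Q.x1 q); linarith
      · have := M.Y2 p (Q.y1 q + (Q.y2 q - Q.y1 q) * 6 / 8); linarith
      · have := M.Y1 p (Q.y1 q + (Q.y2 q - Q.y1 q) * 5 / 8); linarith
    · refine ⟨?_, ?_, ?_⟩
      · linarith
      · have := M.Y2 p (Q.y1 q + (Q.y2 q - Q.y1 q) * 3 / 8); linarith
      · have := M.Y1 p (Q.y1 q + (Q.y2 q - Q.y1 q) * 2 / 8); linarith
  · intro hm
    obtain ⟨m1, m2, m3, m4, -⟩ := h.meet v p hm
    cases b <;> simp only [Meets, nextB, nextQ, Sum.elim_inl, cond_true, cond_false]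
    · refine ⟨?_, ?_, ?_⟩
      · have := M.X2 p (Q.x1 q); linarith
      · have := M.Y1 p (Q.y1 q + (Q.y2 q - Q.y1 q) * 6 / 8); linarith
      · have := M.Y2 p (Q.y1 q + (Q.y2 q - Q.y1 q) * 5 / 8); linarith
    · refine ⟨?_, ?_, ?_⟩
      · linarith
      · have := M.Y1 p (Q.y1 q + (Q.y2 q - Q.y1 q) * 3 / 8); linarith
      · have := M.Y2 p (Q.y1 q + (Q.y2 q - Q.y1 q) * 2 / 8); linarith

theorem meets_c_false (p' : P) (v : V) (p q : P) :
    Meets (nextB B Q M) (nextQ Q M) (Sum.inr (Sum.inl (p', v))) ((p, q), false) ↔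
      p' = p ∧ Meets B Q v q := by
  have hqx := h.px q
  have hqy := h.py q
  constructor
  · intro hh
    simp only [Meets, nextB, nextQ, Sum.elim_inl, Sum.elim_inr, cond_false] at hh
    obtain ⟨m1, m2, m3⟩ := hh
    have hp : p' = p := eq_of_y h m2 m3 (M.Y1 _ _) (M.Y2 _ _) (M.Y1 _ _) (M.Y2 _ _)
    subst hp
    rw [(M.hX p').le_iff_le] at m1
    rw [(M.hY p').le_iff_le] at m2 m3
    exact ⟨rfl, by linarith, by linarith, by linarith⟩
  · rintro ⟨rfl, hm⟩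
    obtain ⟨m1, m2, m3, m4, -⟩ := h.meet v q hm
    simp only [Meets, nextB, nextQ, Sum.elim_inl, Sum.elim_inr, cond_false]
    exact ⟨(M.hX p').monotone (by linarith), (M.hY p').monotone (by linarith),
      (M.hY p').monotone (by linarith)⟩

theorem not_meets_c_true (p' : P) (v : V) (p q : P) :
    ¬ Meets (nextB B Q M) (nextQ Q M) (Sum.inr (Sum.inl (p', v))) ((p, q), true) := by
  intro hh
  simp only [Meets, nextB, nextQ, Sum.elim_inl, Sum.elim_inr, cond_true] at hh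
  obtain ⟨m1, m2, m3⟩ := hh
  have hp : p' = p := eq_of_y h m2 m3 (M.Y1 _ _) (M.Y2 _ _) (M.Y1 _ _) (M.Y2 _ _)
  subst hp
  have := M.X2 p' (B.x2 v)
  have := h.px p'
  linarith

theorem not_meets_d_false (p' q' : P) (p q : P) :
    ¬ Meets (nextB B Q M) (nextQ Q M) (Sum.inr (Sum.inr (p', q'))) ((p, q), false) := by
  have hqy := h.py q
  have hqy' := h.py q'
  intro hh
  simp only [Meets, nextB, nextQ, Sum.elim_inl, Sum.elim_inr, cond_false] at hh
  obtain ⟨m1, m2, m3⟩ := hh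
  have hp : p' = p := eq_of_y h m2 m3 (M.Y1 _ _) (M.Y2 _ _) (M.Y1 _ _) (M.Y2 _ _)
  subst hp
  rw [(M.hY p').le_iff_le] at m2 m3
  have hq : q' = q := eq_of_y' h m2 m3 (by linarith) (by linarith) (by linarith) (by linarith)
  subst hq
  linarith

theorem meets_d_true (p' q' : P) (p q : P) :
    Meets (nextB B Q M) (nextQ Q M) (Sum.inr (Sum.inr (p', q'))) ((p, q), true) ↔
      p' = p ∧ q' = q := by
  have hqy := h.py q
  have hqy' := h.py q'
  constructor
  · intro hh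
    simp only [Meets, nextB, nextQ, Sum.elim_inl, Sum.elim_inr, cond_true] at hh
    obtain ⟨m1, m2, m3⟩ := hh
    have hp : p' = p := eq_of_y h m2 m3 (M.Y1 _ _) (M.Y2 _ _) (M.Y1 _ _) (M.Y2 _ _)
    subst hp
    rw [(M.hY p').le_iff_le] at m2 m3
    have hq : q' = q := eq_of_y' h m2 m3 (by linarith) (by linarith) (by linarith) (by linarith)
    exact ⟨rfl, hq⟩
  · rintro ⟨rfl, rfl⟩
    simp only [Meets, nextB, nextQ, Sum.elim_inl, Sum.elim_inr, cond_true]
    have := h.px p'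
    exact ⟨by linarith, (M.hY p').monotone (by linarith), (M.hY p').monotone (by linarith)⟩

theorem next_col [Finite V] [Finite P] (c : NV V P → ℕ)
    (hc : ∀ v w, v ≠ w → (nextB B Q M).Hit v w → c v ≠ c w) :
    ∃ a, k + 1 ≤ (c '' {v | Meets (nextB B Q M) (nextQ Q M) v a}).ncard := by
  obtain ⟨p, hp⟩ := h.col (fun v => c (Sum.inl v)) (fun v w hne hit =>
    hc _ _ (fun he => hne (Sum.inl_injective he)) ((hit_ll M v w).2 hit))
  obtain ⟨q, hq⟩ := h.col (fun v => c (Sum.inr (Sum.inl (p, v)))) (fun v w hne hit =>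
    hc _ _ (fun he => hne (by simpa using he)) ((hit_cc h M p p v w).2 ⟨rfl, hit⟩))
  set S : Set ℕ := (fun v => c (Sum.inl v)) '' {v | Meets B Q v p} with hS
  set T : Set ℕ := (fun v => c (Sum.inr (Sum.inl (p, v)))) '' {v | Meets B Q v q} with hT
  have hSf : S.Finite := (Set.toFinite _).image _
  have hTf : T.Finite := (Set.toFinite _).image _
  by_cases hU : k + 1 ≤ (S ∪ T).ncard
  · refine ⟨((p, q), false), hU.trans (Set.ncard_le_ncard ?_ ((Set.toFinite _).image _))⟩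
    rintro x (⟨v, hv, rfl⟩ | ⟨v, hv, rfl⟩)
    · exact ⟨Sum.inl v, (meets_l h M v p q false).2 hv, rfl⟩
    · exact ⟨Sum.inr (Sum.inl (p, v)), (meets_c_false h M p v p q).2 ⟨rfl, hv⟩, rfl⟩
  · have hUf : (S ∪ T).Finite := hSf.union hTf
    have hle : (S ∪ T).ncard ≤ k := by omega
    have hSU : S = S ∪ T := Set.eq_of_subset_of_ncard_le Set.subset_union_left
      (hle.trans hp) hUf
    have hTU : T = S ∪ T := Set.eq_of_subset_of_ncard_le Set.subset_union_right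
      (hle.trans hq) hUf
    have hST : S = T := hSU.trans hTU.symm
    have hnot : c (Sum.inr (Sum.inr (p, q))) ∉ S := by
      rw [hST]
      rintro ⟨v, hv, he⟩
      exact hc _ _ (by simp) ((hit_cd h M p p v q).2 ⟨rfl, hv⟩) he
    have hcard : (insert (c (Sum.inr (Sum.inr (p, q)))) S).ncard = S.ncard + 1 :=
      Set.ncard_insert_of_notMem hnot hSf
    refine ⟨((p, q), true), ?_⟩
    calc k + 1 ≤ S.ncard + 1 := by omega
      _ = (insert (c (Sum.inr (Sum.inr (p, q)))) S).ncard := hcard.symm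
      _ ≤ _ := Set.ncard_le_ncard ?_ ((Set.toFinite _).image _)
    rintro x (rfl | ⟨v, hv, rfl⟩)
    · exact ⟨Sum.inr (Sum.inr (p, q)), (meets_d_true h M p q p q).2 ⟨rfl, rfl⟩, rfl⟩
    · exact ⟨Sum.inl v, (meets_l h M v p q true).2 hv, rfl⟩

theorem next_good [Finite V] [Finite P] : Good (k + 1) (nextB B Q M) (nextQ Q M) where
  bx := by
    rintro (v | ⟨p, v⟩ | ⟨p, q⟩) <;> simp only [nextB, Sum.elim_inl, Sum.elim_inr]
    · exact h.bx v
    · exact (M.hX p).monotone (h.bx v)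
    · have := M.X2 p ((Q.x1 q + Q.x2 q) / 2); have := h.px p; linarith
  by' := by
    rintro (v | ⟨p, v⟩ | ⟨p, q⟩) <;> simp only [nextB, Sum.elim_inl, Sum.elim_inr]
    · exact h.by' v
    · exact (M.hY p).monotone (h.by' v)
    · have := h.py q; exact (M.hY p).monotone (by linarith)
  bz := by
    rintro (v | ⟨p, v⟩ | ⟨p, q⟩) <;> simp only [nextB, Sum.elim_inl, Sum.elim_inr]
    · exact h.bz v
    · exact (M.hZ p).monotone (h.bz v)
    · have := h.pz p; linarith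
  px := by
    rintro ⟨⟨p, q⟩, _ | _⟩ <;> simp only [nextQ, cond_true, cond_false]
    · exact M.hX p (h.px q)
    · have := h.px p; linarith
  py := by
    rintro ⟨⟨p, q⟩, _ | _⟩ <;> simp only [nextQ, cond_true, cond_false]
    · have := h.py q; exact M.hY p (by linarith)
    · have := h.py q; exact M.hY p (by linarith)
  pz := by
    rintro ⟨⟨p, q⟩, _ | _⟩ <;> simp only [nextQ]
    · have := h.pz p; linarith
    · have := h.pz p; linarith
  ydisj := by
    rintro ⟨⟨p, q⟩, b⟩ ⟨⟨p', q'⟩, b'⟩ hne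
    have hq := h.py q
    have hq' := h.py q'
    by_cases hp : p = p'
    · subst hp
      by_cases hqq : q = q'
      · subst hqq
        rcases b with _ | _ <;> rcases b' with _ | _ <;>
          simp only [nextQ, cond_true, cond_false, ne_eq, not_true_eq_false] at hne ⊢
        · right; exact M.hY p (by linarith)
        · left; exact M.hY p (by linarith)
      · rcases h.ydisj q q' hqq with hd | hd
        · left
          rcases b with _ | _ <;> rcases b' with _ | _ <;>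
            simp only [nextQ, cond_true, cond_false] <;> exact M.hY p (by linarith)
        · right
          rcases b with _ | _ <;> rcases b' with _ | _ <;>
            simp only [nextQ, cond_true, cond_false] <;> exact M.hY p (by linarith)
    · rcases h.ydisj p p' hp with hd | hd
      · left
        rcases b with _ | _ <;> rcases b' with _ | _ <;>
          simp only [nextQ, cond_true, cond_false] <;>
          exact (M.Y2 p _).trans (hd.trans (M.Y1 p' _))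
      · right
        rcases b with _ | _ <;> rcases b' with _ | _ <;>
          simp only [nextQ, cond_true, cond_false] <;>
          exact (M.Y2 p' _).trans (hd.trans (M.Y1 p _))
  meet := by
    rintro (v | ⟨p', v⟩ | ⟨p', q'⟩) ⟨⟨p, q⟩, b⟩ hm
    · have hm' := (meets_l h M v p q b).1 hm
      obtain ⟨m1, m2, m3, m4, m5⟩ := h.meet v p hm'
      have hpx := h.px p
      have hpy := h.py p
      have hpz := h.pz p
      rcases b with _ | _ <;> simp only [nextB, nextQ, Sum.elim_inl, cond_true, cond_false]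
      · refine ⟨?_, ?_, ?_, ?_, ?_⟩
        · have := M.X1 p (Q.x1 q); linarith
        · have := M.X2 p (Q.x2 q); linarith
        · have := M.Y1 p (Q.y1 q + (Q.y2 q - Q.y1 q) * 5 / 8); linarith
        · have := M.Y2 p (Q.y1 q + (Q.y2 q - Q.y1 q) * 6 / 8); linarith
        · rcases m5 with m5 | m5
          · left; linarith
          · right; linarith
      · refine ⟨?_, ?_, ?_, ?_, ?_⟩
        · linarith
        · linarith
        · have := M.Y1 p (Q.y1 q + (Q.y2 q - Q.y1 q) * 2 / 8); linarith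
        · have := M.Y2 p (Q.y1 q + (Q.y2 q - Q.y1 q) * 3 / 8); linarith
        · rcases m5 with m5 | m5
          · left; linarith
          · right; linarith
    · rcases b with _ | _
      · obtain ⟨rfl, hm'⟩ := (meets_c_false h M p' v p q).1 hm
        obtain ⟨m1, m2, m3, m4, m5⟩ := h.meet v q hm'
        have hqy := h.py q
        have hpz := h.pz p'
        simp only [nextB, nextQ, Sum.elim_inl, Sum.elim_inr, cond_false]
        refine ⟨M.hX p' m1, M.hX p' m2, M.hY p' (by linarith), M.hY p' (by linarith), Or.inl ?_⟩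
        have := M.Z2 p' (B.z2 v); linarith
      · exact (not_meets_c_true h M p' v p q hm).elim
    · rcases b with _ | _
      · exact (not_meets_d_false h M p' q' p q hm).elim
      · obtain ⟨rfl, rfl⟩ := (meets_d_true h M p' q' p q).1 hm
        have hpx := h.px p'
        have hqy := h.py q'
        have hpz := h.pz p'
        simp only [nextB, nextQ, Sum.elim_inr, cond_true]
        refine ⟨?_, by linarith, M.hY p' (by linarith), M.hY p' (by linarith),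
          Or.inl (by linarith)⟩
        have := M.X2 p' ((Q.x1 q' + Q.x2 q') / 2); linarith
  stable := by
    rintro ⟨⟨p, q⟩, b⟩ (v | ⟨p1, v⟩ | ⟨p1, q1⟩) (w | ⟨p2, w⟩ | ⟨p2, q2⟩) hv hw hne hit
    · exact h.stable p v w ((meets_l h M v p q b).1 hv) ((meets_l h M w p q b).1 hw)
        (fun he => hne (by rw [he])) hit
    · exact not_hit_lc h M _ _ _ hit
    · exact not_hit_ld h M _ _ _ hit
    · exact not_hit_lc h M _ _ _ hit.symm
    · rcases b with _ | _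
      · obtain ⟨rfl, hv'⟩ := (meets_c_false h M p1 v p q).1 hv
        obtain ⟨rfl, hw'⟩ := (meets_c_false h M p2 w _ q).1 hw
        exact h.stable q v w hv' hw' (fun he => hne (by rw [he])) ((hit_cc h M _ _ v w).1 hit).2
      · exact not_meets_c_true h M p1 v p q hv
    · rcases b with _ | _
      · exact not_meets_d_false h M _ _ _ _ hw
      · exact not_meets_c_true h M p1 v p q hv
    · exact not_hit_ld h M _ _ _ hit.symm
    · rcases b with _ | _
      · exact not_meets_d_false h M _ _ _ _ hv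
      · exact not_meets_c_true h M p2 w p q hw
    · obtain ⟨rfl, rfl⟩ := hit_dd h M _ _ _ _ hit
      exact hne rfl
  tri := by
    rintro (u | ⟨p1, u⟩ | ⟨p1, q1⟩) (v | ⟨p2, v⟩ | ⟨p2, q2⟩) (w | ⟨p3, w⟩ | ⟨p3, q3⟩)
      huv hvw huw h1 h2 h3
    · exact h.tri u v w (fun he => huv (by rw [he])) (fun he => hvw (by rw [he]))
        (fun he => huw (by rw [he])) h1 h2 h3
    · exact not_hit_lc h M _ _ _ h2
    · exact not_hit_ld h M _ _ _ h2
    · exact not_hit_lc h M _ _ _ h1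
    · exact not_hit_lc h M _ _ _ h1
    · exact not_hit_lc h M _ _ _ h1
    · exact not_hit_ld h M _ _ _ h1
    · exact not_hit_ld h M _ _ _ h1
    · exact not_hit_ld h M _ _ _ h1
    · exact not_hit_lc h M _ _ _ h1.symm
    · exact not_hit_lc h M _ _ _ h1.symm
    · exact not_hit_lc h M _ _ _ h1.symm
    · exact not_hit_lc h M _ _ _ h3.symm
    · obtain ⟨rfl, g1⟩ := (hit_cc h M _ _ _ _).1 h1
      obtain ⟨rfl, g2⟩ := (hit_cc h M _ _ _ _).1 h2
      obtain ⟨-, g3⟩ := (hit_cc h M _ _ _ _).1 h3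
      exact h.tri u v w (fun he => huv (by rw [he])) (fun he => hvw (by rw [he]))
        (fun he => huw (by rw [he])) g1 g2 g3
    · obtain ⟨rfl, g1⟩ := (hit_cc h M _ _ _ _).1 h1
      obtain ⟨rfl, g2⟩ := (hit_cd h M _ _ _ _).1 h2
      obtain ⟨-, g3⟩ := (hit_cd h M _ _ _ _).1 h3
      exact h.stable q3 u v g3 g2 (fun he => huv (by rw [he])) g1
    · exact not_hit_lc h M _ _ _ h3.symm
    · obtain ⟨rfl, g1⟩ := (hit_cd h M _ _ _ _).1 h1
      obtain ⟨rfl, g2⟩ := (hit_cd h M _ _ _ _).1 h2.symm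
      obtain ⟨-, g3⟩ := (hit_cc h M _ _ _ _).1 h3
      exact h.stable q2 u w g1 g2 (fun he => huw (by rw [he])) g3
    · obtain ⟨rfl, rfl⟩ := hit_dd h M _ _ _ _ h2
      exact hvw rfl
    · exact not_hit_ld h M _ _ _ h1.symm
    · exact not_hit_ld h M _ _ _ h1.symm
    · exact not_hit_ld h M _ _ _ h1.symm
    · exact not_hit_ld h M _ _ _ h3.symm
    · obtain ⟨rfl, g1⟩ := (hit_cd h M _ _ _ _).1 h1.symm
      obtain ⟨rfl, g2⟩ := (hit_cc h M _ _ _ _).1 h2
      obtain ⟨-, g3⟩ := (hit_cd h M _ _ _ _).1 h3.symm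
      exact h.stable q1 v w g1 g3 (fun he => hvw (by rw [he])) g2
    · obtain ⟨rfl, rfl⟩ := hit_dd h M _ _ _ _ h3
      exact huw rfl
    · exact not_hit_ld h M _ _ _ h3.symm
    · obtain ⟨rfl, rfl⟩ := hit_dd h M _ _ _ _ h1
      exact huv rfl
    · obtain ⟨rfl, rfl⟩ := hit_dd h M _ _ _ _ h1
      exact huv rfl
  col := next_col h M

end Step

/-- Burling's theorem in the form used here. -/
theorem exists_good (k : ℕ) : ∃ (V P : Type) (_ : Finite V) (_ : Finite P) (B : Boxes V)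
    (Q : Boxes P), Good k B Q := by
  induction k with
  | zero =>
    obtain ⟨B, Q, h⟩ := good_zero
    exact ⟨Empty, Unit, inferInstance, inferInstance, B, Q, h⟩
  | succ k ih =>
    obtain ⟨V, P, _, _, B, Q, h⟩ := ih
    obtain ⟨M⟩ := exists_stepMaps h
    exact ⟨NV V P, (P × P) × Bool, inferInstance, inferInstance, _, _, next_good h M⟩

/-- For every `k` there is a finite family of boxes in three dimensions whose intersection graph
is triangle-free and has no proper colouring with fewer than `k` colours. -/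
theorem burling (k : ℕ) : ∃ (V : Type) (_ : Finite V) (B : Boxes V),
    (∀ v, B.Hit v v) ∧
    (∀ u v w, u ≠ v → v ≠ w → u ≠ w → B.Hit u v → B.Hit v w → B.Hit u w → False) ∧
    ∀ (m : ℕ) (c : V → Fin m), (∀ v w, v ≠ w → B.Hit v w → c v ≠ c w) → k ≤ m := by
  obtain ⟨V, P, hV, hP, B, Q, h⟩ := exists_good k
  refine ⟨V, hV, B, fun v => ⟨⟨h.bx v, h.bx v⟩, ⟨h.by' v, h.by' v⟩, ⟨h.bz v, h.bz v⟩⟩, h.tri,
    fun m c hc => ?_⟩
  obtain ⟨p, hp⟩ := h.col (fun v => (c v : ℕ)) (fun v w hne hit he =>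
    hc v w hne hit (Fin.ext he))
  refine hp.trans ?_
  have hsub : ((fun v => (c v : ℕ)) '' {v | Meets B Q v p}) ⊆ (Finset.range m : Set ℕ) := by
    rintro x ⟨v, -, rfl⟩
    simp
  calc _ ≤ (Finset.range m : Set ℕ).ncard := Set.ncard_le_ncard hsub (Finset.finite_toSet _)
    _ = m := by rw [Set.ncard_coe_finset, Finset.card_range]

end Pool.Agent.Lib.Pd1e448
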