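import Mathlib

/-!
Definitions: convex geometries, dimension, Boolean dimension and local dimension of posets.
-/

namespace Pool.Agent.Lib.Pd1e448

/-- A convex geometry on a finite set `X`: a family of subsets containing `∅` and `X`, closed
under intersection, in which every member other than `X` can be extended by one element. -/
structure IsConvexGeometry {X : Type} (C : Set (Set X)) : Prop where
  finite : Finite X
  empty_mem : ∅ ∈ C
  univ_mem : Set.univ ∈ C
  inter_mem : ∀ A ∈ C, ∀ B ∈ C, A ∩ B ∈ C
  extend : ∀ A ∈ C, A ≠ Set.univ → ∃ x, x ∉ A ∧ insert x A ∈ C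

/-- `P` is the intersection of `t` linear orders (which are then linear extensions of `P`). -/
def HasRealizer (P : Type) [PartialOrder P] (t : ℕ) : Prop :=
  ∃ L : Fin t → LinearOrder P, ∀ x y : P, x ≤ y ↔ ∀ i, (L i).le x y

/-- The (Dushnik-Miller) dimension: the least `t` such that `P` is the intersection of `t` linear
extensions of `P`. -/
noncomputable def dim (P : Type) [PartialOrder P] : ℕ∞ :=
  ⨅ (t : ℕ) (_ : HasRealizer P t), (t : ℕ∞)

/-- There are `d` linear orders on the ground set of `P` (not necessarily extensions of `P`) and a
Boolean function `φ` of `d` variables such that for distinct `x, y`, `x < y` in `P` iff `φ` is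
true at the vector whose `i`-th entry says whether `x < y` in the `i`-th linear order. -/
def HasBooleanRealizer (P : Type) [PartialOrder P] (d : ℕ) : Prop :=
  ∃ (L : Fin d → LinearOrder P) (φ : (Fin d → Prop) → Prop),
    ∀ x y : P, x ≠ y → (x < y ↔ φ (fun i => (L i).lt x y))

/-- The Boolean dimension. -/
noncomputable def bdim (P : Type) [PartialOrder P] : ℕ∞ :=
  ⨅ (d : ℕ) (_ : HasBooleanRealizer P d), (d : ℕ∞)

/-- A partial linear extension of `P`: a linear extension of an induced subposet. -/
structure PartialLinearExtension (P : Type) [PartialOrder P] where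
  /-- the ground set of the induced subposet -/
  carrier : Set P
  /-- the linear order on it -/
  order : LinearOrder carrier
  /-- it extends the order of `P` -/
  extends_le : ∀ x y : carrier, (x : P) ≤ (y : P) → order.le x y

/-- `x` and `y` both belong to the partial linear extension `L` and `x < y` holds in it. -/
def PartialLinearExtension.Below {P : Type} [PartialOrder P] (L : PartialLinearExtension P)
    (x y : P) : Prop :=
  ∃ (hx : x ∈ L.carrier) (hy : y ∈ L.carrier), L.order.lt ⟨x, hx⟩ ⟨y, hy⟩

/-- A local realizer: every relation `x < y` of `P` holds in some member, and for incomparable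
`x, y` there are members with `x < y` and with `y < x`. -/
def IsLocalRealizer {P : Type} [PartialOrder P] (F : Set (PartialLinearExtension P)) : Prop :=
  (∀ x y : P, x < y → ∃ L ∈ F, L.Below x y) ∧
    ∀ x y : P, ¬ x ≤ y → ¬ y ≤ x → (∃ L ∈ F, L.Below x y) ∧ ∃ L ∈ F, L.Below y x

/-- There is a local realizer in which every element of `P` is in at most `d` members. -/
def HasLocalRealizer (P : Type) [PartialOrder P] (d : ℕ) : Prop :=
  ∃ F : Set (PartialLinearExtension P), IsLocalRealizer F ∧
    ∀ x : P, {L | L ∈ F ∧ x ∈ L.carrier}.encard ≤ d

/-- The local dimension. -/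
noncomputable def ldim (P : Type) [PartialOrder P] : ℕ∞ :=
  ⨅ (d : ℕ) (_ : HasLocalRealizer P d), (d : ℕ∞)

end Pool.Agent.Lib.Pd1e448
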