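import Pool.Agent.Lib.Pd1e448.Defs
import Pool.Agent.Lib.Pd1e448.Burling

/-!
A convex geometry built from a triangle-free graph whose closed neighbourhoods are
intersections of few initial segments.
-/

namespace Pool.Agent.Lib.Pd1e448

section Main

variable {V : Type} [Finite V] {m : ℕ} (rk : Fin m → V → ℕ)

/-- Intersection of initial segments. -/
def box (t : Fin m → ℕ) : Set V := {v | ∀ i, rk i v < t i}

/-- Members of the base convex geometry. -/
def IsG (C : Set V) : Prop := ∃ t, C = box rk t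

/-- Size of the smallest initial segment containing `A`. -/
noncomputable def key (A : Set V) (i : Fin m) : ℕ := sSup ((fun v => rk i v + 1) '' A)

variable {rk}

theorem key_le_iff {A : Set V} {i : Fin m} {t : ℕ} : key rk A i ≤ t ↔ ∀ a ∈ A, rk i a < t := by
  have hb : BddAbove ((fun v => rk i v + 1) '' A) := ((Set.toFinite A).image _).bddAbove
  rw [key, csSup_le_iff' hb]
  simp [Nat.succ_le_iff]

theorem lt_key {A : Set V} {a : V} (ha : a ∈ A) (i : Fin m) : rk i a < key rk A i :=
  key_le_iff.1 le_rfl a ha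

theorem subset_box_iff {A : Set V} {t : Fin m → ℕ} :
    A ⊆ box rk t ↔ ∀ i, key rk A i ≤ t i := by
  constructor
  · intro h i
    exact key_le_iff.2 fun a ha => h ha i
  · intro h a ha i
    exact (lt_key ha i).trans_le (h i)

theorem subset_hull (A : Set V) : A ⊆ box rk (key rk A) := subset_box_iff.2 fun _ => le_rfl

theorem key_mono {A B : Set V} (h : A ⊆ B) (i : Fin m) : key rk A i ≤ key rk B i :=
  key_le_iff.2 fun _ ha => lt_key (h ha) i

theorem box_mono {s t : Fin m → ℕ} (h : ∀ i, s i ≤ t i) : box rk s ⊆ box rk t :=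
  fun _ hv i => (hv i).trans_le (h i)

theorem IsG.hull_eq {C : Set V} (h : IsG rk C) : box rk (key rk C) = C := by
  obtain ⟨t, ht⟩ := h
  apply Set.Subset.antisymm _ (subset_hull C)
  conv_rhs => rw [ht]
  exact box_mono (subset_box_iff.1 ht.subset)

theorem isG_hull (A : Set V) : IsG rk (box rk (key rk A)) := ⟨_, rfl⟩

theorem IsG.inter {A B : Set V} (hA : IsG rk A) (hB : IsG rk B) : IsG rk (A ∩ B) := by
  obtain ⟨s, rfl⟩ := hA
  obtain ⟨t, rfl⟩ := hB
  refine ⟨fun i => min (s i) (t i), ?_⟩
  ext v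
  simp only [box, Set.mem_inter_iff, Set.mem_ofPred_eq, lt_min_iff]
  exact ⟨fun h i => ⟨h.1 i, h.2 i⟩, fun h => ⟨fun i => (h i).1, fun i => (h i).2⟩⟩

theorem exists_bound : ∃ N : ℕ, ∀ i v, rk i v < N := by
  have hb : BddAbove (Set.range (fun p : Fin m × V => rk p.1 p.2)) := (Set.toFinite _).bddAbove
  obtain ⟨N, hN⟩ := hb
  exact ⟨N + 1, fun i v => Nat.lt_succ_of_le (hN ⟨(i, v), rfl⟩)⟩

theorem isG_univ : IsG rk (Set.univ : Set V) := by
  obtain ⟨N, hN⟩ := exists_bound (rk := rk)
  refine ⟨fun _ => N, ?_⟩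
  ext v
  simp [box, hN]

theorem isG_empty (hm : 0 < m) : IsG rk (∅ : Set V) := by
  refine ⟨fun _ => 0, ?_⟩
  ext v
  simp only [Set.mem_empty_iff_false, box, Set.mem_ofPred_eq, not_lt_zero', false_iff]
  exact fun h => h ⟨0, hm⟩

/-- Extension by one element in the base geometry. -/
theorem IsG.extend (hinj : ∀ i, Function.Injective (rk i)) {C : Set V} (hC : IsG rk C)
    (hne : C ≠ Set.univ) : ∃ x, x ∉ C ∧ IsG rk (insert x C) := by
  classical
  -- a proper superset of minimal cardinality
  have hex : ∃ n : ℕ, ∃ D : Set V, IsG rk D ∧ C ⊂ D ∧ D.ncard = n :=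
    ⟨_, Set.univ, isG_univ, Set.ssubset_univ_iff.2 hne, rfl⟩
  obtain ⟨D, hD, hCD, hn⟩ := Nat.find_spec hex
  have hmin : ∀ E : Set V, IsG rk E → C ⊂ E → D.ncard ≤ E.ncard := by
    intro E hE hCE
    rw [hn]
    exact Nat.find_min' hex ⟨E, hE, hCE, rfl⟩
  -- some key increases
  have hk : ∃ i, key rk C i < key rk D i := by
    by_contra hcon
    push Not at hcon
    have : D ⊆ C := by
      rw [← hC.hull_eq]
      exact subset_box_iff.2 hcon
    exact hCD.2 this
  obtain ⟨i, hi⟩ := hk
  have hxm : ∃ x ∈ D, key rk D i = rk i x + 1 := by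
    have hne' : ((fun v => rk i v + 1) '' D).Nonempty := by
      have : D.Nonempty := by
        by_contra h0
        rw [Set.not_nonempty_iff_eq_empty] at h0
        rw [h0] at hCD
        exact hCD.2 (Set.empty_subset _)
      exact this.image _
    obtain ⟨x, hx, he⟩ := Nat.sSup_mem hne' ((Set.toFinite D).image _).bddAbove
    exact ⟨x, hx, he.symm⟩
  obtain ⟨x, hxD, hx⟩ := hxm
  have hxC : x ∉ C := by
    intro hxC
    have := lt_key (rk := rk) hxC i
    omega
  have hE : IsG rk (D \ {x}) := by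
    have hEq : D \ {x} = D ∩ box rk (fun j => if j = i then rk i x else key rk D j) := by
      ext v
      simp only [Set.mem_sdiff, Set.mem_singleton_iff, Set.mem_inter_iff, box, Set.mem_ofPred_eq]
      constructor
      · rintro ⟨hv, hvx⟩
        refine ⟨hv, fun j => ?_⟩
        split_ifs with hj
        · subst hj
          have h1 := lt_key (rk := rk) hv j
          have h2 : rk j v ≠ rk j x := fun h => hvx (hinj j h)
          omega
        · exact lt_key hv j
      · rintro ⟨hv, hb⟩
        refine ⟨hv, ?_⟩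
        rintro rfl
        have := hb i
        simp at this
    rw [hEq]
    exact hD.inter ⟨_, rfl⟩
  have hCE : C ⊆ D \ {x} := fun c hc => ⟨hCD.1 hc, fun h => hxC (h ▸ hc)⟩
  have hEC : C = D \ {x} := by
    by_contra hne'
    have h1 := hmin _ hE (Set.ssubset_iff_subset_ne.2 ⟨hCE, hne'⟩)
    have h2 : (D \ {x}).ncard < D.ncard := Set.ncard_sdiff_singleton_lt_of_mem hxD (Set.toFinite _)
    omega
  refine ⟨x, hxC, ?_⟩
  rw [hEC, Set.insert_sdiff_singleton, Set.insert_eq_of_mem hxD]
  exact hD

variable (rk) (G : SimpleGraph V)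

/-- The convex geometry. -/
def Fam : Set (Set V) :=
  {A | IsG rk A ∨ ∃ u, u ∉ A ∧ IsG rk (insert u A) ∧ A ⊆ G.neighborSet u}

variable {rk} {G}

theorem isConvexGeometry_fam (hm : 0 < m) (hinj : ∀ i, Function.Injective (rk i))
    (htri : ∀ u v w, G.Adj u v → G.Adj v w → G.Adj u w → False) :
    IsConvexGeometry (Fam rk G) where
  finite := inferInstance
  empty_mem := Or.inl (isG_empty hm)
  univ_mem := Or.inl isG_univ
  inter_mem := by
    have key1 : ∀ A B u, IsG rk A → u ∉ B → IsG rk (insert u B) → B ⊆ G.neighborSet u →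
        A ∩ B ∈ Fam rk G := by
      intro A B u hA hu hB hBN
      by_cases huA : u ∈ A
      · right
        refine ⟨u, fun h => hu h.2, ?_, fun x hx => hBN hx.2⟩
        have : insert u (A ∩ B) = A ∩ insert u B := by
          ext v
          simp only [Set.mem_insert_iff, Set.mem_inter_iff]
          constructor
          · rintro (rfl | ⟨h1, h2⟩)
            · exact ⟨huA, Or.inl rfl⟩
            · exact ⟨h1, Or.inr h2⟩
          · rintro ⟨h1, rfl | h2⟩
            · exact Or.inl rfl
            · exact Or.inr ⟨h1, h2⟩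
        rw [this]
        exact hA.inter hB
      · left
        have : A ∩ B = A ∩ insert u B := by
          ext v
          simp only [Set.mem_insert_iff, Set.mem_inter_iff]
          constructor
          · rintro ⟨h1, h2⟩
            exact ⟨h1, Or.inr h2⟩
          · rintro ⟨h1, rfl | h2⟩
            · exact (huA h1).elim
            · exact ⟨h1, h2⟩
        rw [this]
        exact hA.inter hB
    rintro A (hA | ⟨u, hu, hA, hAN⟩) B (hB | ⟨w, hw, hB, hBN⟩)
    · exact Or.inl (hA.inter hB)
    · exact key1 A B w hA hw hB hBN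
    · rw [Set.inter_comm]
      exact key1 B A u hB hu hA hAN
    · by_cases huw : u = w
      · subst huw
        right
        refine ⟨u, fun h => hu h.1, ?_, fun x hx => hAN hx.1⟩
        have : insert u (A ∩ B) = insert u A ∩ insert u B := Set.insert_inter_distrib _ _ _
        rw [this]
        exact hA.inter hB
      · by_cases huB : u ∈ B
        · by_cases hwA : w ∈ A
          · left
            have : A ∩ B = ∅ := by
              rw [Set.eq_empty_iff_forall_notMem]
              rintro x ⟨hxA, hxB⟩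
              have h1 : G.Adj u x := hAN hxA
              have h2 : G.Adj w x := hBN hxB
              have h3 : G.Adj u w := hAN hwA
              exact htri u w x h3 h2 h1
            rw [this]
            exact isG_empty hm
          · -- `w` not in `insert u A`
            have h1 : A ∩ B = (insert u A ∩ insert w B) \ ({u} : Set V) := by
              ext v
              simp only [Set.mem_inter_iff, Set.mem_sdiff, Set.mem_insert_iff,
                Set.mem_singleton_iff]
              constructor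
              · rintro ⟨ha, hb⟩
                exact ⟨⟨Or.inr ha, Or.inr hb⟩, fun h => hu (h ▸ ha)⟩
              · rintro ⟨⟨ha | ha, hb⟩, hn⟩
                · exact (hn ha).elim
                · refine ⟨ha, ?_⟩
                  rcases hb with rfl | hb
                  · exact (hwA ha).elim
                  · exact hb
            right
            refine ⟨u, fun h => hu h.1, ?_, fun x hx => hAN hx.1⟩
            rw [h1, Set.insert_sdiff_singleton, Set.insert_eq_of_mem]
            · exact hA.inter hB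
            · exact ⟨Set.mem_insert _ _, Set.mem_insert_of_mem _ huB⟩
        · -- `u` not in `insert w B`
          have h1 : A ∩ B = insert u A ∩ B := by
            ext v
            simp only [Set.mem_inter_iff, Set.mem_insert_iff]
            constructor
            · rintro ⟨ha, hb⟩
              exact ⟨Or.inr ha, hb⟩
            · rintro ⟨rfl | ha, hb⟩
              · exact (huB hb).elim
              · exact ⟨ha, hb⟩
          rw [h1]
          exact key1 _ _ w hA hw hB hBN
  extend := by
    rintro A (hA | ⟨u, hu, hA, hAN⟩) hne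
    · obtain ⟨x, hx, hx'⟩ := hA.extend hinj hne
      exact ⟨x, hx, Or.inl hx'⟩
    · exact ⟨u, hu, Or.inl hA⟩

/-! ### dimension lower bound -/

theorem le_dim {k : ℕ} (hsing : ∀ a : V, IsG rk ({a} : Set V))
    (hnbr : ∀ u : V, IsG rk (insert u (G.neighborSet u)))
    (hcol : ∀ (t : ℕ) (c : V → Fin t), (∀ v w, G.Adj v w → c v ≠ c w) → k ≤ t) :
    (k : ℕ∞) ≤ dim (Fam rk G) := by
  unfold dim
  refine le_iInf fun t => le_iInf fun ht => ?_
  obtain ⟨L, hL⟩ := ht
  let x : V → Fam rk G := fun u => ⟨{u}, Or.inl (hsing u)⟩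
  let y : V → Fam rk G := fun u => ⟨G.neighborSet u,
    Or.inr ⟨u, by simp, hnbr u, Set.Subset.rfl⟩⟩
  have hxy : ∀ u, ∃ i, ¬ (L i).le (x u) (y u) := by
    intro u
    by_contra hcon
    push Not at hcon
    have : x u ≤ y u := (hL _ _).2 hcon
    have h2 : ({u} : Set V) ⊆ G.neighborSet u := this
    have h3 : u ∈ G.neighborSet u := h2 rfl
    simp at h3
  choose c hc using hxy
  have := hcol t c (by
    intro v w hvw heq
    have h1 := hc v
    have h2 := hc w
    rw [← heq] at h2
    have h3 : (L (c v)).le (x w) (y v) :=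
      (hL _ _).1 (show ({w} : Set V) ⊆ G.neighborSet v by simpa using hvw) _
    have h4 : (L (c v)).le (x v) (y w) :=
      (hL _ _).1 (show ({v} : Set V) ⊆ G.neighborSet w by simpa using hvw.symm) _
    have h5 : (L (c v)).le (y w) (x w) := ((L (c v)).le_total _ _).resolve_left h2
    exact h1 ((L (c v)).le_trans _ _ _ h4 ((L (c v)).le_trans _ _ _ h5 h3)))
  exact_mod_cast this

/-! ### the structure of the order -/

theorem exists_center (A : Fam rk G) (h : ¬ IsG rk A.1) :
    ∃ u : V, u ∉ A.1 ∧ IsG rk (insert u A.1) ∧ A.1 ⊆ G.neighborSet u :=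
  A.2.resolve_left h

/-- The removed element of a member that is not in the base geometry. -/
noncomputable def cen (A : Fam rk G) (h : ¬ IsG rk A.1) : V := (exists_center A h).choose

theorem cen_notMem (A : Fam rk G) (h : ¬ IsG rk A.1) : cen A h ∉ A.1 :=
  (exists_center A h).choose_spec.1

theorem isG_insert_cen (A : Fam rk G) (h : ¬ IsG rk A.1) : IsG rk (insert (cen A h) A.1) :=
  (exists_center A h).choose_spec.2.1

theorem subset_cen (A : Fam rk G) (h : ¬ IsG rk A.1) : A.1 ⊆ G.neighborSet (cen A h) :=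
  (exists_center A h).choose_spec.2.2

theorem hull_eq_insert (A : Fam rk G) (h : ¬ IsG rk A.1) :
    box rk (key rk A.1) = insert (cen A h) A.1 := by
  have h1 : box rk (key rk A.1) ⊆ insert (cen A h) A.1 := by
    conv_rhs => rw [← (isG_insert_cen A h).hull_eq]
    exact box_mono (key_mono (Set.subset_insert _ _))
  apply Set.Subset.antisymm h1
  have h2 : cen A h ∈ box rk (key rk A.1) := by
    by_contra hc
    apply h
    have : box rk (key rk A.1) = A.1 := by
      apply Set.Subset.antisymm _ (subset_hull _)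
      intro v hv
      rcases h1 hv with rfl | hv'
      · exact (hc hv).elim
      · exact hv'
    rw [← this]
    exact isG_hull _
  exact Set.insert_subset h2 (subset_hull _)

theorem subset_iff (A B : Fam rk G) : A.1 ⊆ B.1 ↔
    (∀ i, key rk A.1 i ≤ key rk B.1 i) ∧ ∀ h : ¬ IsG rk B.1, cen B h ∉ A.1 := by
  constructor
  · intro h
    exact ⟨key_mono h, fun hB hc => cen_notMem B hB (h hc)⟩
  · rintro ⟨h1, h2⟩
    have h3 : A.1 ⊆ box rk (key rk B.1) := subset_box_iff.2 h1
    by_cases hB : IsG rk B.1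
    · rwa [hB.hull_eq] at h3
    · rw [hull_eq_insert B hB] at h3
      intro a ha
      rcases h3 ha with rfl | hb
      · exact (h2 hB ha).elim
      · exact hb

theorem exists_other (hsing : ∀ a : V, IsG rk ({a} : Set V)) (A : Fam rk G)
    (h : ¬ IsG rk A.1) (u : V) (hu : u ∈ A.1) : ∃ v ∈ A.1, v ≠ u := by
  by_contra hcon
  push Not at hcon
  apply h
  have : A.1 = {u} := by
    ext v
    exact ⟨fun hv => hcon v hv, fun hv => by rw [Set.mem_singleton_iff.1 hv]; exact hu⟩
  rw [this]
  exact hsing u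

/-- For two members outside the base geometry, inclusion is decided by the keys. -/
theorem subset_of_key (htri : ∀ u v w, G.Adj u v → G.Adj v w → G.Adj u w → False)
    (hsing : ∀ a : V, IsG rk ({a} : Set V)) (A B : Fam rk G) (hA : ¬ IsG rk A.1)
    (hB : ¬ IsG rk B.1) (hk : ∀ i, key rk A.1 i ≤ key rk B.1 i) : cen B hB ∉ A.1 := by
  intro hc
  obtain ⟨v, hv, hne⟩ := exists_other hsing A hA _ hc
  have h3 : A.1 ⊆ box rk (key rk B.1) := subset_box_iff.2 hk
  rw [hull_eq_insert B hB] at h3
  have h4 : v ∈ B.1 := (h3 hv).resolve_left hne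
  exact htri (cen A hA) (cen B hB) v (subset_cen A hA hc) (subset_cen B hB h4)
    (subset_cen A hA hv)

/-! ### Boolean dimension -/

/-- Boolean realizers with an arbitrary finite index type. -/
theorem hasBooleanRealizer_of {P : Type} [PartialOrder P] {J : Type} [Fintype J]
    (L : J → LinearOrder P) (φ : (J → Prop) → Prop)
    (h : ∀ x y : P, x ≠ y → (x < y ↔ φ (fun j => (L j).lt x y))) :
    HasBooleanRealizer P (Fintype.card J) := by
  let e := Fintype.equivFin J
  refine ⟨fun i => L (e.symm i), fun b => φ (fun j => b (e j)), fun x y hxy => ?_⟩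
  rw [h x y hxy]
  show φ (fun j => (L j).lt x y) ↔ φ (fun j => (L (e.symm (e j))).lt x y)
  have h1 : (fun j => (L (e.symm (e j))).lt x y) = fun j => (L j).lt x y := by
    funext j
    rw [e.symm_apply_apply]
  rw [h1]

/-- Sort by `f`, ties broken by the injective function `e`. -/
noncomputable def upOrd {P : Type} (f e : P → ℕ) (he : Function.Injective e) : LinearOrder P :=
  LinearOrder.lift' (fun x => toLex (f x, e x)) (fun x y h => by
    have := congrArg (fun p => (ofLex p).2) h
    exact he this)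

/-- Sort by `f`, ties broken by the reverse of the injective function `e`. -/
noncomputable def downOrd {P : Type} (f e : P → ℕ) (he : Function.Injective e) : LinearOrder P :=
  LinearOrder.lift' (fun x => toLex (f x, OrderDual.toDual (e x))) (fun x y h => by
    have := congrArg (fun p => OrderDual.ofDual (ofLex p).2) h
    exact he this)

theorem upOrd_lt {P : Type} (f e : P → ℕ) (he : Function.Injective e) (x y : P) :
    (upOrd f e he).lt x y ↔ f x < f y ∨ (f x = f y ∧ e x < e y) :=
  Prod.Lex.toLex_lt_toLex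

theorem downOrd_lt {P : Type} (f e : P → ℕ) (he : Function.Injective e) (x y : P) :
    (downOrd f e he).lt x y ↔ f x < f y ∨ (f x = f y ∧ e y < e x) :=
  Prod.Lex.toLex_lt_toLex

theorem le_iff_lt_or_lt {P : Type} (f e : P → ℕ) (he : Function.Injective e) {x y : P}
    (hxy : x ≠ y) : f x ≤ f y ↔ (upOrd f e he).lt x y ∨ (downOrd f e he).lt x y := by
  rw [upOrd_lt, downOrd_lt]
  have h1 : e x ≠ e y := fun h => hxy (he h)
  omega

theorem lt_iff_lt_and_lt {P : Type} (f e : P → ℕ) (he : Function.Injective e) {x y : P} :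
    f x < f y ↔ (upOrd f e he).lt x y ∧ (downOrd f e he).lt x y := by
  rw [upOrd_lt, downOrd_lt]
  omega

open Classical in
/-- The type of a member: `0` if it is in the base geometry, `1` otherwise. -/
noncomputable def ty (A : Fam rk G) : ℕ := if IsG rk A.1 then 0 else 1

open Classical in
/-- The mixed key used to test whether the removed element belongs to another member. -/
noncomputable def mix (i : Fin m) (A : Fam rk G) : ℕ :=
  if h : IsG rk A.1 then 2 * key rk A.1 i + 1 else 2 * (rk i (cen A h) + 1)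

theorem mem_iff_mix (A B : Fam rk G) (hA : IsG rk A.1) (hB : ¬ IsG rk B.1) :
    cen B hB ∈ A.1 ↔ ∀ i, mix i B < mix i A := by
  have h1 : cen B hB ∈ A.1 ↔ ∀ i, rk i (cen B hB) < key rk A.1 i := by
    conv_lhs => rw [← hA.hull_eq]
    rfl
  rw [h1]
  refine forall_congr' fun i => ?_
  rw [mix, mix, dif_neg hB, dif_pos hA]
  omega

theorem hasBooleanRealizer_fam (htri : ∀ u v w, G.Adj u v → G.Adj v w → G.Adj u w → False)
    (hsing : ∀ a : V, IsG rk ({a} : Set V)) : HasBooleanRealizer (Fam rk G) (3 * m + 2) := by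
  classical
  obtain ⟨e, he⟩ : ∃ e : Fam rk G → ℕ, Function.Injective e := by
    obtain ⟨n, ⟨f⟩⟩ := Finite.exists_equiv_fin (Fam rk G)
    exact ⟨fun x => (f x : ℕ), fun x y h => f.injective (Fin.ext h)⟩
  let J := (Fin m × Bool) ⊕ Fin m ⊕ Bool
  let L : J → LinearOrder (Fam rk G) := fun j =>
    match j with
    | Sum.inl (i, true) => upOrd (fun A => key rk A.1 i) e he
    | Sum.inl (i, false) => downOrd (fun A => key rk A.1 i) e he
    | Sum.inr (Sum.inl i) => upOrd (mix i) e he
    | Sum.inr (Sum.inr true) => upOrd ty e he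
    | Sum.inr (Sum.inr false) => downOrd ty e he
  let φ : (J → Prop) → Prop := fun b =>
    (∀ i, b (Sum.inl (i, true)) ∨ b (Sum.inl (i, false))) ∧
      ((b (Sum.inr (Sum.inr true)) ∧ b (Sum.inr (Sum.inr false))) →
        ∃ i, b (Sum.inr (Sum.inl i)))
  have hmain : HasBooleanRealizer (Fam rk G) (Fintype.card J) := by
    refine hasBooleanRealizer_of L φ fun A B hAB => ?_
    have hlt : A < B ↔ A.1 ⊆ B.1 := by
      rw [lt_iff_le_and_ne]
      exact ⟨fun h => h.1, fun h => ⟨h, hAB⟩⟩
    rw [hlt, subset_iff]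
    have hkeys : (∀ i, key rk A.1 i ≤ key rk B.1 i) ↔
        ∀ i, (L (Sum.inl (i, true))).lt A B ∨ (L (Sum.inl (i, false))).lt A B :=
      forall_congr' fun i => le_iff_lt_or_lt (fun A : Fam rk G => key rk A.1 i) e he hAB
    have hty : ty A < ty B ↔
        (L (Sum.inr (Sum.inr true))).lt A B ∧ (L (Sum.inr (Sum.inr false))).lt A B :=
      lt_iff_lt_and_lt ty e he
    show _ ↔ (∀ i, (L (Sum.inl (i, true))).lt A B ∨ (L (Sum.inl (i, false))).lt A B) ∧
      ((L (Sum.inr (Sum.inr true))).lt A B ∧ (L (Sum.inr (Sum.inr false))).lt A B →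
        ∃ i, (L (Sum.inr (Sum.inl i))).lt A B)
    rw [← hkeys, ← hty]
    by_cases hB : IsG rk B.1
    · have h1 : ¬ (ty A < ty B) := by simp [ty, hB]
      simp [hB, h1]
    · by_cases hA : IsG rk A.1
      · have h1 : ty A < ty B := by simp [ty, hB, hA]
        have h2 : (∀ h : ¬ IsG rk B.1, cen B h ∉ A.1) ↔ ∃ i, (upOrd (mix i) e he).lt A B := by
          have h3 : (∀ h : ¬ IsG rk B.1, cen B h ∉ A.1) ↔ ¬ (cen B hB ∈ A.1) :=
            ⟨fun h => h hB, fun h _ => h⟩
          rw [h3, mem_iff_mix A B hA hB]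
          push Not
          refine exists_congr fun i => ?_
          rw [upOrd_lt]
          have h4 : mix i A ≠ mix i B := by
            rw [mix, mix, dif_neg hB, dif_pos hA]
            omega
          omega
        rw [h2]
        exact and_congr_right fun _ => ⟨fun h _ => h, fun h => h h1⟩
      · have h1 : ¬ (ty A < ty B) := by simp [ty, hB, hA]
        constructor
        · rintro ⟨h2, -⟩
          exact ⟨h2, fun h => (h1 h).elim⟩
        · rintro ⟨h2, -⟩
          exact ⟨h2, fun h => subset_of_key htri hsing A B hA h h2⟩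
  have hcard : Fintype.card J = 3 * m + 2 := by
    simp only [J, Fintype.card_sum, Fintype.card_prod, Fintype.card_fin, Fintype.card_bool]
    ring
  rwa [hcard] at hmain

/-! ### local dimension -/

/-- Sort by the monotone function `f`, then by cardinality, then by `e`. -/
noncomputable def extOrd (f e : Fam rk G → ℕ) (he : Function.Injective e) (S : Set (Fam rk G)) :
    LinearOrder S :=
  LinearOrder.lift' (fun x : S => toLex (f x, toLex ((x : Fam rk G).1.ncard, e x)))
    (fun x y h => by
      have := congrArg (fun p => (ofLex (ofLex p).2).2) h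
      exact Subtype.ext (he this))

theorem extOrd_lt_of (f e : Fam rk G → ℕ) (he : Function.Injective e) (S : Set (Fam rk G))
    (x y : S) (h : f x < f y) : (extOrd f e he S).lt x y :=
  Prod.Lex.toLex_lt_toLex.2 (Or.inl h)

/-- The partial linear extension given by a monotone function. -/
noncomputable def mkPLE (f e : Fam rk G → ℕ) (he : Function.Injective e)
    (hf : ∀ A B : Fam rk G, A.1 ⊆ B.1 → f A ≤ f B) (S : Set (Fam rk G)) :
    PartialLinearExtension (Fam rk G) where
  carrier := S
  order := extOrd f e he S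
  extends_le := by
    intro x y hxy
    show toLex (f x, toLex ((x : Fam rk G).1.ncard, e x)) ≤
      toLex (f y, toLex ((y : Fam rk G).1.ncard, e y))
    rcases eq_or_ne x y with rfl | hne
    · exact le_rfl
    · have hsub : (x : Fam rk G).1 ⊆ (y : Fam rk G).1 := hxy
      have hss : (x : Fam rk G).1 ⊂ (y : Fam rk G).1 :=
        Set.ssubset_iff_subset_ne.2 ⟨hsub, fun h => hne (Subtype.ext (Subtype.ext h))⟩
      have hcard := Set.ncard_lt_ncard hss (Set.toFinite _)
      rw [Prod.Lex.toLex_le_toLex]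
      rcases (hf _ _ hsub).lt_or_eq with h | h
      · exact Or.inl h
      · exact Or.inr ⟨h, (Prod.Lex.toLex_le_toLex.2 (Or.inl hcard))⟩

open Classical in
/-- Indicator of membership. -/
noncomputable def ind (u : V) (A : Fam rk G) : ℕ := if u ∈ A.1 then 1 else 0

/-- The carrier of the partial linear extension attached to `u`. -/
def car (u : V) : Set (Fam rk G) :=
  {A | (u ∈ A.1 ∧ A.1 ⊆ insert u (G.neighborSet u)) ∨ ∃ h : ¬ IsG rk A.1, cen A h = u}

theorem car_encard (htri : ∀ u v w, G.Adj u v → G.Adj v w → G.Adj u w → False)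
    (hsing : ∀ a : V, IsG rk ({a} : Set V)) (A : Fam rk G) :
    {u : V | A ∈ car (rk := rk) (G := G) u}.encard ≤ 2 := by
  by_cases hA : IsG rk A.1
  · have h1 : {u : V | A ∈ car (rk := rk) (G := G) u} ⊆
        {u | u ∈ A.1 ∧ A.1 ⊆ insert u (G.neighborSet u)} := by
      rintro u (h | ⟨h, -⟩)
      · exact h
      · exact (h hA).elim
    refine (Set.encard_le_encard h1).trans ?_
    by_contra hcon
    push Not at hcon
    have hfin : {u | u ∈ A.1 ∧ A.1 ⊆ insert u (G.neighborSet u)}.Finite := Set.toFinite _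
    rw [← hfin.cast_ncard_eq] at hcon
    have hcon' : 2 < {u | u ∈ A.1 ∧ A.1 ⊆ insert u (G.neighborSet u)}.ncard := by
      exact_mod_cast hcon
    obtain ⟨a, b, c, ha, hb, hc, hab, hac, hbc⟩ := (Set.two_lt_ncard_iff hfin).1 hcon'
    have hadj : ∀ {u v : V}, (u ∈ A.1 ∧ A.1 ⊆ insert u (G.neighborSet u)) → v ∈ A.1 → u ≠ v →
        G.Adj u v := by
      intro u v hu hv huv
      rcases hu.2 hv with h | h
      · exact (huv h.symm).elim
      · exact h
    exact htri a b c (hadj ha hb.1 hab) (hadj hb hc.1 hbc) (hadj ha hc.1 hac)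
  · have h1 : {u : V | A ∈ car (rk := rk) (G := G) u} ⊆ {cen A hA} := by
      rintro u (⟨hu, hAu⟩ | ⟨h, hu⟩)
      · exfalso
        obtain ⟨v, hv, hne⟩ := exists_other hsing A hA u hu
        have h2 : G.Adj u v := (hAu hv).resolve_left hne
        exact htri (cen A hA) u v (subset_cen A hA hu) h2 (subset_cen A hA hv)
      · exact hu.symm
    refine (Set.encard_le_encard h1).trans ?_
    rw [Set.encard_singleton]
    norm_num

theorem hasLocalRealizer_fam (htri : ∀ u v w, G.Adj u v → G.Adj v w → G.Adj u w → False)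
    (hsing : ∀ a : V, IsG rk ({a} : Set V)) (hm : 0 < m) :
    HasLocalRealizer (Fam rk G) (m + 2) := by
  classical
  obtain ⟨e, he⟩ : ∃ e : Fam rk G → ℕ, Function.Injective e := by
    obtain ⟨n, ⟨f⟩⟩ := Finite.exists_equiv_fin (Fam rk G)
    exact ⟨fun x => (f x : ℕ), fun x y h => f.injective (Fin.ext h)⟩
  have hK : ∀ i, ∀ A B : Fam rk G, A.1 ⊆ B.1 → key rk A.1 i ≤ key rk B.1 i :=
    fun i A B h => key_mono h i
  have hI : ∀ u, ∀ A B : Fam rk G, A.1 ⊆ B.1 → ind u A ≤ ind u B := by
    intro u A B h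
    unfold ind
    by_cases hu : u ∈ A.1
    · simp [hu, h hu]
    · simp [hu]
  let F1 : Fin m → PartialLinearExtension (Fam rk G) := fun i =>
    mkPLE (fun A => key rk A.1 i) e he (hK i) Set.univ
  let F2 : V → PartialLinearExtension (Fam rk G) := fun u =>
    mkPLE (ind u) e he (hI u) (car u)
  -- a non-inclusion is witnessed
  have hwit : ∀ A B : Fam rk G, ¬ A ≤ B →
      ∃ L ∈ Set.range F1 ∪ Set.range F2, L.Below B A := by
    intro A B hAB
    have hAB' : ¬ A.1 ⊆ B.1 := hAB
    rw [subset_iff] at hAB'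
    by_cases hk : ∀ i, key rk A.1 i ≤ key rk B.1 i
    · have h2 : ∃ h : ¬ IsG rk B.1, cen B h ∈ A.1 := by
        by_contra hcon
        push Not at hcon
        exact hAB' ⟨hk, hcon⟩
      obtain ⟨hB, hc⟩ := h2
      refine ⟨F2 (cen B hB), Or.inr ⟨_, rfl⟩, ?_⟩
      have hBm : B ∈ car (rk := rk) (G := G) (cen B hB) := Or.inr ⟨hB, rfl⟩
      have hAm : A ∈ car (rk := rk) (G := G) (cen B hB) := by
        refine Or.inl ⟨hc, ?_⟩
        have h3 : A.1 ⊆ box rk (key rk B.1) := subset_box_iff.2 hk
        rw [hull_eq_insert B hB] at h3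
        exact h3.trans (Set.insert_subset_insert (subset_cen B hB))
      refine ⟨hBm, hAm, extOrd_lt_of _ _ he _ _ _ ?_⟩
      show ind (cen B hB) B < ind (cen B hB) A
      simp [ind, hc, cen_notMem B hB]
    · push Not at hk
      obtain ⟨i, hi⟩ := hk
      exact ⟨F1 i, Or.inl ⟨i, rfl⟩, Set.mem_univ _, Set.mem_univ _,
        extOrd_lt_of _ _ he _ _ _ hi⟩
  refine ⟨Set.range F1 ∪ Set.range F2, ⟨?_, ?_⟩, ?_⟩
  · intro A B hAB
    refine ⟨F1 ⟨0, hm⟩, Or.inl ⟨_, rfl⟩, Set.mem_univ _, Set.mem_univ _, ?_⟩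
    have h1 := (F1 ⟨0, hm⟩).extends_le ⟨A, Set.mem_univ _⟩ ⟨B, Set.mem_univ _⟩ hAB.le
    exact ((F1 ⟨0, hm⟩).order.lt_iff_le_not_ge _ _).2 ⟨h1, fun h2 => by
      have := (F1 ⟨0, hm⟩).order.le_antisymm _ _ h1 h2
      exact hAB.ne (congrArg Subtype.val this)⟩
  · intro A B hAB hBA
    exact ⟨hwit B A hBA, hwit A B hAB⟩
  · intro A
    have h1 : {L | L ∈ Set.range F1 ∪ Set.range F2 ∧ A ∈ L.carrier} ⊆
        F1 '' Set.univ ∪ F2 '' {u : V | A ∈ car (rk := rk) (G := G) u} := by
      rintro L ⟨⟨i, rfl⟩ | ⟨u, rfl⟩, hA⟩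
      · exact Or.inl ⟨i, Set.mem_univ _, rfl⟩
      · exact Or.inr ⟨u, hA, rfl⟩
    calc _ ≤ (F1 '' Set.univ ∪ F2 '' {u : V | A ∈ car (rk := rk) (G := G) u}).encard :=
        Set.encard_le_encard h1
      _ ≤ (F1 '' Set.univ).encard + (F2 '' {u : V | A ∈ car (rk := rk) (G := G) u}).encard :=
        Set.encard_union_le _ _
      _ ≤ (Set.univ : Set (Fin m)).encard +
          {u : V | A ∈ car (rk := rk) (G := G) u}.encard :=
        add_le_add (Set.encard_image_le _ _) (Set.encard_image_le _ _)
      _ ≤ (m : ℕ∞) + 2 := by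
        refine add_le_add ?_ (car_encard htri hsing A)
        rw [Set.encard_univ]
        simp
      _ = ((m + 2 : ℕ) : ℕ∞) := by push_cast; rfl

end Main

/-! ### ranks of box graphs -/

theorem exists_rank {V : Type} [Finite V] (g : V → ℚ) : ∃ r : V → ℕ, Function.Injective r ∧
    ∀ c : ℚ, ∃ t : ℕ, ∀ v, g v ≤ c ↔ r v < t := by
  classical
  obtain ⟨e, he⟩ : ∃ e : V → ℕ, Function.Injective e := by
    obtain ⟨n, ⟨f⟩⟩ := Finite.exists_equiv_fin V
    exact ⟨fun x => (f x : ℕ), fun x y h => f.injective (Fin.ext h)⟩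
  let f : V → ℚ ×ₗ ℕ := fun v => toLex (g v, e v)
  have hf : Function.Injective f := fun x y h => he (congrArg (fun p => (ofLex p).2) h)
  have hlt : ∀ v w, f v < f w → {x | f x < f v}.ncard < {x | f x < f w}.ncard := by
    intro v w h
    refine Set.ncard_lt_ncard ?_ (Set.toFinite _)
    refine ⟨fun x hx => lt_trans hx h, fun hsub => ?_⟩
    exact lt_irrefl (f v) (hsub h)
  refine ⟨fun v => {x | f x < f v}.ncard, fun v w h => ?_, fun c => ?_⟩
  · by_contra hne
    rcases lt_or_gt_of_ne (fun h' => hne (hf h')) with h1 | h1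
    · exact (hlt _ _ h1).ne h
    · exact (hlt _ _ h1).ne' h
  · refine ⟨{x | g x ≤ c}.ncard, fun v => ⟨fun hv => ?_, fun hv => ?_⟩⟩
    · refine Set.ncard_lt_ncard ⟨?_, fun hsub => ?_⟩ (Set.toFinite _)
      · intro x hx
        have hx' : g x ≤ g v := by
          rcases Prod.Lex.toLex_lt_toLex.1 hx with h | h
          · exact h.le
          · exact h.1.le
        exact hx'.trans hv
      · exact lt_irrefl (f v) (hsub hv)
    · by_contra hcon
      push Not at hcon
      refine absurd hv (not_lt.2 (Set.ncard_le_ncard ?_ (Set.toFinite _)))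
      intro x hx
      exact Prod.Lex.toLex_lt_toLex.2 (Or.inl (lt_of_le_of_lt hx hcon))

/-- The intersection graph of a family of boxes. -/
def Boxes.graph {V : Type} (B : Boxes V) : SimpleGraph V where
  Adj v w := v ≠ w ∧ B.Hit v w
  symm := ⟨fun _ _ h => ⟨h.1.symm, h.2.symm⟩⟩
  loopless := ⟨fun _ h => h.1 rfl⟩

theorem main (k : ℕ) : ∃ (X : Type) (C : Set (Set X)), IsConvexGeometry C ∧
    bdim C ≤ 23 ∧ ldim C ≤ 9 ∧ (k : ℕ∞) ≤ dim C := by
  obtain ⟨V, hV, B, hself, htri, hcol⟩ := burling k
  obtain ⟨r0, i0, t0⟩ := exists_rank B.x1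
  obtain ⟨r1, i1, t1⟩ := exists_rank B.y1
  obtain ⟨r2, i2, t2⟩ := exists_rank B.z1
  obtain ⟨r3, i3, t3⟩ := exists_rank (fun v => -B.x2 v)
  obtain ⟨r4, i4, t4⟩ := exists_rank (fun v => -B.y2 v)
  obtain ⟨r5, i5, t5⟩ := exists_rank (fun v => -B.z2 v)
  obtain ⟨N, hN⟩ : ∃ N : ℕ, ∀ v, r0 v < N := by
    obtain ⟨N, hN⟩ := (Set.toFinite (Set.range r0)).bddAbove
    exact ⟨N + 1, fun v => Nat.lt_succ_of_le (hN ⟨v, rfl⟩)⟩
  let rk : Fin 7 → V → ℕ := ![r0, r1, r2, r3, r4, r5, fun v => N - r0 v]
  have hinj : ∀ i, Function.Injective (rk i) := by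
    intro i
    fin_cases i
    · exact i0
    · exact i1
    · exact i2
    · exact i3
    · exact i4
    · exact i5
    · intro v w h
      apply i0
      have h1 := hN v
      have h2 := hN w
      have h3 : N - r0 v = N - r0 w := h
      omega
  obtain ⟨b, hb⟩ := exists_bound (rk := rk)
  have hsing : ∀ a : V, IsG rk ({a} : Set V) := by
    intro a
    refine ⟨![r0 a + 1, b, b, b, b, b, N - r0 a + 1], ?_⟩
    ext v
    simp only [Set.mem_singleton_iff, box, Set.mem_ofPred_eq]
    constructor
    · rintro rfl i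
      fin_cases i
      · exact Nat.lt_succ_self _
      · exact hb 1 v
      · exact hb 2 v
      · exact hb 3 v
      · exact hb 4 v
      · exact hb 5 v
      · exact Nat.lt_succ_self _
    · intro h
      have h1 : r0 v < r0 a + 1 := h 0
      have h2 : N - r0 v < N - r0 a + 1 := h 6
      have h3 := hN v
      have h4 := hN a
      apply i0
      omega
  have hnbr : ∀ u : V, IsG rk (insert u (B.graph.neighborSet u)) := by
    intro u
    obtain ⟨s0, h0⟩ := t0 (B.x2 u)
    obtain ⟨s1, h1⟩ := t1 (B.y2 u)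
    obtain ⟨s2, h2⟩ := t2 (B.z2 u)
    obtain ⟨s3, h3⟩ := t3 (-B.x1 u)
    obtain ⟨s4, h4⟩ := t4 (-B.y1 u)
    obtain ⟨s5, h5⟩ := t5 (-B.z1 u)
    refine ⟨![s0, s1, s2, s3, s4, s5, b], ?_⟩
    have h6 : ∀ v, v ∈ insert u (B.graph.neighborSet u) ↔ B.Hit v u := by
      intro v
      constructor
      · rintro (rfl | h)
        · exact hself v
        · exact h.2.symm
      · intro h
        by_cases huv : v = u
        · exact Or.inl huv
        · exact Or.inr ⟨fun h' => huv h'.symm, h.symm⟩
    ext v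
    rw [h6]
    simp only [box, Set.mem_ofPred_eq]
    constructor
    · rintro ⟨⟨a1, a2⟩, ⟨b1, b2⟩, ⟨c1, c2⟩⟩ i
      fin_cases i
      · exact (h0 v).1 a1
      · exact (h1 v).1 b1
      · exact (h2 v).1 c1
      · exact (h3 v).1 (by simpa using a2)
      · exact (h4 v).1 (by simpa using b2)
      · exact (h5 v).1 (by simpa using c2)
      · exact hb 6 v
    · intro h
      exact ⟨⟨(h0 v).2 (h 0), by simpa using (h3 v).2 (h 3)⟩,
        ⟨(h1 v).2 (h 1), by simpa using (h4 v).2 (h 4)⟩,
        ⟨(h2 v).2 (h 2), by simpa using (h5 v).2 (h 5)⟩⟩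
  have htri' : ∀ u v w, B.graph.Adj u v → B.graph.Adj v w → B.graph.Adj u w → False :=
    fun u v w h1 h2 h3 => htri u v w h1.1 h2.1 h3.1 h1.2 h2.2 h3.2
  refine ⟨V, Fam rk B.graph, isConvexGeometry_fam (by norm_num) hinj htri', ?_, ?_, ?_⟩
  · have h := hasBooleanRealizer_fam (rk := rk) (G := B.graph) htri' hsing
    exact iInf₂_le (f := fun (d : ℕ) (_ : HasBooleanRealizer (Fam rk B.graph) d) => (d : ℕ∞)) 23 h
  · have h := hasLocalRealizer_fam (rk := rk) (G := B.graph) htri' hsing (by norm_num)
    exact iInf₂_le (f := fun (d : ℕ) (_ : HasLocalRealizer (Fam rk B.graph) d) => (d : ℕ∞)) 9 h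
  · exact le_dim hsing hnbr fun t c hc => hcol t c fun v w hne hit => hc v w ⟨hne, hit⟩

end Pool.Agent.Lib.Pd1e448
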